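import Pool.Agent.BC.Stmts

/-!
# HLK: most deep descendants are stable for the oscillation
-/

set_option autoImplicit false

open Finset

namespace Pool.Agent.BC.H24

open Pool.Agent.BC

theorem av1_mono (m : ℕ) (f g : ℤ → ℝ) (j : ℤ) (h : ∀ k, f k ≤ g k) : av1 m f j ≤ av1 m g j := by
  unfold av1
  rw [smul_eq_mul, smul_eq_mul]
  apply mul_le_mul_of_nonneg_left _ (by positivity)
  exact Finset.sum_le_sum (fun r _ => h _)

/-- the square of the average is at most the average of the squares -/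
theorem av1_sq (m : ℕ) (f : ℤ → ℝ) (j : ℤ) : (av1 m f j) ^ 2 ≤ av1 m (fun k => f k ^ 2) j := by
  unfold av1
  rw [smul_eq_mul, smul_eq_mul, mul_pow]
  have h1 := sq_sum_le_card_mul_sum_sq (s := (Finset.univ : Finset (Fin (2 ^ m))))
    (f := fun r => f (2 ^ m * j + ((r : ℕ) : ℤ)))
  rw [Finset.card_univ, Fintype.card_fin] at h1
  push_cast at h1
  have h2 : (0 : ℝ) < (2 : ℝ) ^ m := by positivity
  have h3 : (((2 : ℝ) ^ m)⁻¹) ^ 2 * (2 : ℝ) ^ m = ((2 : ℝ) ^ m)⁻¹ := by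
    field_simp
  calc (((2 : ℝ) ^ m)⁻¹) ^ 2 * (∑ r : Fin (2 ^ m), f (2 ^ m * j + ((r : ℕ) : ℤ))) ^ 2
      ≤ (((2 : ℝ) ^ m)⁻¹) ^ 2 *
        ((2 : ℝ) ^ m * ∑ r : Fin (2 ^ m), f (2 ^ m * j + ((r : ℕ) : ℤ)) ^ 2) :=
        mul_le_mul_of_nonneg_left h1 (by positivity)
    _ = ((2 : ℝ) ^ m)⁻¹ * ∑ r : Fin (2 ^ m), f (2 ^ m * j + ((r : ℕ) : ℤ)) ^ 2 := by
        rw [← mul_assoc, h3]

theorem av1_one_sub (m : ℕ) (f : ℤ → ℝ) (j : ℤ) :
    av1 m (fun k => 1 - f k) j = 1 - av1 m f j := by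
  unfold av1
  rw [smul_eq_mul, smul_eq_mul, Finset.sum_sub_distrib, mul_sub]
  have h2 : ((2 : ℝ) ^ m) ≠ 0 := by positivity
  congr 1
  rw [Finset.sum_const, Finset.card_univ, Fintype.card_fin, nsmul_eq_mul, mul_one]
  push_cast
  exact inv_mul_cancel₀ h2

/-- HLK -/
theorem hlk (sup : SupStmt) (hhb : HhbStmt) (mar : MarStmt) : HlkStmt := by
  intro X _ _ x hx n j κ ε hκ hε
  obtain ⟨h01, hsup, _⟩ := hhb X x hx
  have M : ∀ (m : ℕ) (g : ℤ → ℝ) (c : Fin 1 → ℤ),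
      av m (fun d => g (d 0)) c = av1 m g (c 0) := by
    intro m g c
    exact (mar ℝ m).2 1 0 g c
  obtain ⟨m₀, hm₀⟩ := sup 1 (fun n c => (1 - hh x n (c 0)) ^ 2) 1 (by
      intro n c
      have h := h01 n (c 0)
      refine ⟨sq_nonneg _, ?_⟩
      have h1 : (0 : ℝ) ≤ 1 - hh x n (c 0) := by linarith [h.2]
      have h2 : 1 - hh x n (c 0) ≤ 1 := by linarith [h.1]
      exact pow_le_one₀ h1 h2) (by
      intro n m c
      have h := h01 n (c 0)
      have e1 : av m (fun d : Fin 1 → ℤ => (1 - hh x (n + m) (d 0)) ^ 2) c =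
          av1 m (fun k => (1 - hh x (n + m) k) ^ 2) (c 0) :=
        M m (fun k => (1 - hh x (n + m) k) ^ 2) c
      have h2 : (1 - hh x n (c 0)) ^ 2 ≤ av1 m (fun k => (1 - hh x (n + m) k) ^ 2) (c 0) := by
        refine le_trans ?_ (av1_sq m (fun k => 1 - hh x (n + m) k) (c 0))
        rw [av1_one_sub]
        have h3 := hsup n m (c 0)
        have h4 : (0 : ℝ) ≤ 1 - hh x n (c 0) := by linarith [h.2]
        exact pow_le_pow_left₀ h4 (by
          have h5 : av1 m (fun k => hh x (n + m) k) (c 0) = av1 m (hh x (n + m)) (c 0) := rfl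
          linarith) 2
      rw [e1]
      exact h2) n (fun _ => j) κ ε hκ hε
  refine ⟨m₀, fun m hm => ?_⟩
  have h := hm₀ m hm
  have e : bad1 m (fun d => Stw x κ (n + m) d) j =
      bad m (fun d : Fin 1 → ℤ => ∀ m', av m' (fun c : Fin 1 → ℤ =>
        (1 - hh x (n + m + m') (c 0)) ^ 2) d ≤ (1 - hh x (n + m) (d 0)) ^ 2 + κ)
        (fun _ => j) := by
    unfold bad bad1
    have e2 := M m (fun k => by
      classical
      exact if Stw x κ (n + m) k then (0 : ℝ) else 1) (fun _ => j)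
    rw [← e2]
    congr 1
    funext d
    have e3 : Stw x κ (n + m) (d 0) ↔ ∀ m', av m' (fun c : Fin 1 → ℤ =>
        (1 - hh x (n + m + m') (c 0)) ^ 2) d ≤ (1 - hh x (n + m) (d 0)) ^ 2 + κ := by
      unfold Stw
      refine forall_congr' (fun m' => ?_)
      rw [M m' (fun k => (1 - hh x (n + m + m') k) ^ 2) d]
    classical
    exact if_congr e3 rfl rfl
  rw [e]
  exact h

end Pool.Agent.BC.H24
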